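import Pool.Agent.H90.STK.Stmts

/-!
# PRM: marginals of powers of a law
-/

set_option autoImplicit false

namespace Pool.STK

open Finset Real
open Pool.Agent.H49.Ent Pool.Agent.H32.Dense

theorem prm_thm : PRMStmt := by
  intro Ω ι κ _ _ _ _ _ p hp σ hσ y
  classical
  let g : ι → Ω → ℝ := fun i a => if (∃ k, σ k = i ∧ y k ≠ a) then 0 else p a
  have h1 : ∀ (w : ι → Ω) (inst : Decidable ((fun i => w (σ i)) = y)),
      @ite ℝ ((fun i => w (σ i)) = y) inst (prd p w) 0 = ∏ i, g i (w i) := by
    intro w _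
    by_cases h : (fun i => w (σ i)) = y
    · rw [if_pos h]
      unfold prd
      apply Finset.prod_congr rfl
      intro i _
      have : ¬ ∃ k, σ k = i ∧ y k ≠ w i := by
        rintro ⟨k, hk, hne⟩
        apply hne
        rw [← h, ← hk]
      simp only [g, if_neg this]
    · rw [if_neg h]
      have : ∃ k, w (σ k) ≠ y k := by
        by_contra hc
        push Not at hc
        exact h (funext hc)
      obtain ⟨k, hk⟩ := this
      symm
      apply Finset.prod_eq_zero (Finset.mem_univ (σ k))
      simp only [g]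
      rw [if_pos ⟨k, rfl, fun e => hk e.symm⟩]
  have h2 : ∀ k, ∑ a, g (σ k) a = p (y k) := by
    intro k
    rw [Finset.sum_eq_single (y k)]
    · simp only [g]
      rw [if_neg]
      rintro ⟨k', hk', hne⟩
      exact hne (by rw [hσ hk'])
    · intro a _ ha
      simp only [g]
      rw [if_pos ⟨k, rfl, fun e => ha e.symm⟩]
    · intro h
      exact absurd (Finset.mem_univ _) h
  have h3 : ∀ i ∈ (univ : Finset ι), i ∉ univ.image σ → ∑ a, g i a = 1 := by
    intro i _ hi
    rw [← hp.sum_one]
    apply Finset.sum_congr rfl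
    intro a _
    simp only [g]
    rw [if_neg]
    rintro ⟨k, hk, _⟩
    exact hi (Finset.mem_image.2 ⟨k, Finset.mem_univ _, hk⟩)
  have h4 : ∑ w : ι → Ω, ∏ i, g i (w i) = ∏ i, ∑ a, g i a := by
    rw [Finset.prod_univ_sum, Fintype.piFinset_univ]
  refine (Finset.sum_congr rfl fun w _ => h1 w _).trans ?_
  calc ∑ w : ι → Ω, ∏ i, g i (w i) = ∏ i, ∑ a, g i a := h4
    _ = ∏ i ∈ univ.image σ, ∑ a, g i a :=
        (Finset.prod_subset (Finset.subset_univ _) h3).symm
    _ = ∏ k, ∑ a, g (σ k) a := Finset.prod_image fun a _ b _ hab => hσ hab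
    _ = prd p y := by
        unfold prd
        exact Finset.prod_congr rfl fun k _ => h2 k

end Pool.STK
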