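import Pool.Agent.H90.STK.Stmts

/-!
# AVG: average over the windows of times
-/

set_option autoImplicit false

namespace Pool.STK

open Finset Real MeasureTheory
open Pool.Agent.H49.Ent Pool.Agent.H32.Dense

theorem AVG.qq_int (hINT : INTStmt) {m : ℕ} {Ω ζ : Type} [Fintype Ω] {p : Ω → ℝ}
    (hp : IsLaw p) (u d : Ω → Fin m → ℝ) (Z : Ω → ζ) (k N : ℕ) :
    IntervalIntegrable (fun t => qq p u d Z k N t) volume 0 1 := by
  have hs : (fun t => qq p u d Z k N t) = ∑ r ∈ range N, fun t =>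
      (II p u d Z k r t + 3 * cc m) := by
    funext t
    simp [qq]
  rw [hs]
  refine IntervalIntegrable.sum _ fun r _ => ?_
  have h1 := (hINT m Ω ζ p u d hp).2 Z ((r + 1) * k) (r * k) 0 1
  have h2 := (hINT m Ω (((Fin m → ℤ) × (Fin m → ℤ)) × ζ) p u d hp).1 (bb u d Z k r)
    ((r + 1) * k) 0 1
  exact (h1.sub h2).add intervalIntegrable_const

theorem avg_thm (hSDP : SDPStmt) (hW5 : W5Stmt) (hINT : INTStmt) : AVGStmt := by
  intro m a R η₂ ε ε₂ N k Ω ζ _ p u d Z hp hd ha hN hgood hst hε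
  have hq := AVG.qq_int hINT hp u d Z k N
  have hX := (hINT m Ω ζ p u d hp).1 Z (N * k) 0 1
  have h1 := hW5 (fun t => CH p (Xp u d t (N * k)) Z + qq p u d Z k N t) k (hX.add hq)
  rw [intervalIntegral.integral_add hX hq] at h1
  have h2 := fun w hw => hSDP m a R η₂ ε ε₂ N k Ω ζ p u d Z hp hd ha hN hgood hst hε w hw
  have h3 : ∑ w ∈ range (2 ^ k), (a - 1) * Iw p u d Z k N ((w : ℝ) / 2 ^ k) ≤
      ∑ w ∈ range (2 ^ k), (a * (∫ s in (0 : ℝ)..1,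
        (CH p (Xp u d ((w : ℝ) / 2 ^ k + s * (2 ^ k)⁻¹) (N * k)) Z +
        qq p u d Z k N ((w : ℝ) / 2 ^ k + s * (2 ^ k)⁻¹))) +
      (-CH p (Fl d (N * k)) Z + (R + η₂) * (N * k) + m * (k * Real.log 2) + cc m)) := by
    apply sum_le_sum
    intro w hw
    have := h2 w (mem_range.1 hw)
    linarith
  rw [sum_add_distrib, ← mul_sum, ← mul_sum, sum_const, card_range, nsmul_eq_mul] at h3
  have h2k : (0 : ℝ) < 2 ^ k := by positivity
  have h4 := mul_le_mul_of_nonneg_left h3 (inv_nonneg.2 h2k.le)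
  rw [← mul_sum] at h1
  have e1 : ((2 : ℝ) ^ k)⁻¹ * (((2 ^ k : ℕ) : ℝ) *
      (-CH p (Fl d (N * k)) Z + (R + η₂) * (N * k) + m * (k * Real.log 2) + cc m)) =
      -CH p (Fl d (N * k)) Z + (R + η₂) * (N * k) + m * (k * Real.log 2) + cc m := by
    push_cast
    rw [← mul_assoc, inv_mul_cancel₀ h2k.ne', one_mul]
  rw [mul_add, e1] at h4
  simp only [Xav]
  have e2 : ((2 : ℝ) ^ k)⁻¹ * (a * ∑ w ∈ range (2 ^ k), ∫ s in (0 : ℝ)..1,
        (CH p (Xp u d ((w : ℝ) / 2 ^ k + s * (2 ^ k)⁻¹) (N * k)) Z +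
        qq p u d Z k N ((w : ℝ) / 2 ^ k + s * (2 ^ k)⁻¹))) =
      a * ((∫ t in (0 : ℝ)..1, CH p (Xp u d t (N * k)) Z) +
        ∫ t in (0 : ℝ)..1, qq p u d Z k N t) := by
    rw [h1]
    ring
  rw [e2] at h4
  have e3 : ((2 : ℝ) ^ k)⁻¹ * ((a - 1) * ∑ w ∈ range (2 ^ k),
      Iw p u d Z k N ((w : ℝ) / 2 ^ k)) =
      (a - 1) * (((2 : ℝ) ^ k)⁻¹ * ∑ w ∈ range (2 ^ k), Iw p u d Z k N ((w : ℝ) / 2 ^ k)) := by
    ring
  rw [e3] at h4
  linarith [mul_add a (∫ t in (0 : ℝ)..1, CH p (Xp u d t (N * k)) Z)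
    (∫ t in (0 : ℝ)..1, qq p u d Z k N t)]

end Pool.STK
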