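import Pool.Agent.H90.STK.Stmts

/-!
# CR1: self-similarity of near-maximisers
-/

set_option autoImplicit false

namespace Pool.STK

open Finset Real MeasureTheory
open Pool.Agent.H49.Ent Pool.Agent.H32.Dense

theorem CR1.zo_abs_le {Ω : Type} {m : ℕ} (i : ℕ) (x : Ω → Fin m → ℝ) (ω : Ω) (l : Fin m) :
    |zo i x ω l| ≤ 1 := by
  rw [zo, abs_of_nonneg (Int.fract_nonneg _)]
  exact (Int.fract_lt_one _).le

theorem CR1.succ_mul' (r k : ℕ) : (r + 1) * k = r * k + k := by ring

theorem cr1_thm (hZD : ZDStmt) (hZS : ZSStmt) (hZX : ZXStmt) (hSPA : SPAStmt) (hSPB : SPBStmt)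
    (_hSPC : SPCStmt) (hINT : INTStmt) : CR1Stmt := by
  intro m a R η ε ε₁ N k Ω ζ _ p u d Z hp hd ha hN hgood hεN hst hnear
  have ha0 : 0 ≤ a := by linarith
  have hk0 : (0 : ℝ) ≤ k := Nat.cast_nonneg k
  have hS : ∀ r < N, ∀ j ≤ k, CH p (Fl u (r * k + j)) (fun ω => (Fl d (r * k + j) ω, Z ω)) ≤
      ε * (N * k) := by
    intro r hr j hj
    have h1 : r * k + j ≤ N * k := by
      calc r * k + j ≤ r * k + k := by omega
        _ = (r + 1) * k := (CR1.succ_mul' r k).symm
        _ ≤ N * k := Nat.mul_le_mul_right k hr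
    have := hst _ h1
    push_cast at this
    exact this
  have hIb : ∀ (r j : ℕ), IntervalIntegrable
      (fun t => CH p (Xp u d t j) (bb u d Z k r)) volume 0 1 := fun r j =>
    (hINT m Ω (((Fin m → ℤ) × (Fin m → ℤ)) × ζ) p u d hp).1 _ j 0 1
  have hIc : ∀ (r j : ℕ), IntervalIntegrable
      (fun t => CH p (Xp u d t j) (fun ω => (Xp u d t r ω, Z ω))) volume 0 1 := fun r j =>
    (hINT m Ω ζ p u d hp).2 Z j r 0 1
  constructor
  · intro r hr
    have hsticky : Sticky p (zo (r * k) u) (zo (r * k) d) (bb u d Z k r) ε₁ k := by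
      intro j hj
      have h1 := hZS m Ω ζ p u d Z hp (r * k) j
      have h2 := hS r hr j hj
      have h3 : ε * (N * k) ≤ ε₁ * k := by
        rw [← mul_assoc]
        exact mul_le_mul_of_nonneg_right hεN hk0
      exact (h1.trans h2).trans h3
    have h1 := hgood Ω (((Fin m → ℤ) × (Fin m → ℤ)) × ζ) p (zo (r * k) u) (zo (r * k) d)
      (bb u d Z k r) hp (fun ω i => CR1.zo_abs_le _ _ _ _) hsticky
    have h2 : CH p (Fl (zo (r * k) d) k) (bb u d Z k r) =
        CH p (Fl d ((r + 1) * k)) (bb u d Z k r) := by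
      rw [CR1.succ_mul']
      exact hZD m Ω ζ p u d Z hp (r * k) k
    have hI1 : IntervalIntegrable
        (fun t => CH p (Xp (zo (r * k) u) (zo (r * k) d) t k) (bb u d Z k r)) volume 0 1 :=
      (hINT m Ω (((Fin m → ℤ) × (Fin m → ℤ)) × ζ) p (zo (r * k) u) (zo (r * k) d) hp).1 _ k 0 1
    have h3 : Xav p (zo (r * k) u) (zo (r * k) d) (bb u d Z k r) k ≤
        (∫ t in (0 : ℝ)..1, CH p (Xp u d t ((r + 1) * k)) (bb u d Z k r)) + cc m := by
      have h4 : (∫ t in (0 : ℝ)..1, CH p (Xp (zo (r * k) u) (zo (r * k) d) t k)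
          (bb u d Z k r)) ≤
          ∫ t in (0 : ℝ)..1, (CH p (Xp u d t ((r + 1) * k)) (bb u d Z k r) + cc m) := by
        apply intervalIntegral.integral_mono_on zero_le_one hI1
          ((hIb r _).add intervalIntegrable_const)
        intro t ht
        have h5 : CH p (Xp (zo (r * k) u) (zo (r * k) d) t k) (bb u d Z k r) -
            CH p (Xp u d t (r * k + k)) (bb u d Z k r) ≤ cc m :=
          (abs_le.1 (hZX m Ω ζ p u d Z hp (r * k) k t ht.1 ht.2)).2
        rw [CR1.succ_mul']
        linarith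
      rw [intervalIntegral.integral_add (hIb r _) intervalIntegrable_const] at h4
      simpa [Xav] using h4
    rw [h2] at h1
    have h6 := mul_le_mul_of_nonneg_left h3 ha0
    simp only [vv]
    linarith [mul_add a (∫ t in (0 : ℝ)..1, CH p (Xp u d t ((r + 1) * k)) (bb u d Z k r))
      (cc m)]
  · have e1 : ∀ r, ∫ t in (0 : ℝ)..1, (II p u d Z k r t + cc m) =
        (∫ t in (0 : ℝ)..1, CH p (Xp u d t ((r + 1) * k))
          (fun ω => (Xp u d t (r * k) ω, Z ω))) -
        (∫ t in (0 : ℝ)..1, CH p (Xp u d t ((r + 1) * k)) (bb u d Z k r)) + cc m := by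
      intro r
      simp only [II]
      rw [intervalIntegral.integral_add ((hIc _ _).sub (hIb _ _)) intervalIntegrable_const,
        intervalIntegral.integral_sub (hIc _ _) (hIb _ _)]
      simp
    have e2 : ∑ r ∈ range N, ∫ t in (0 : ℝ)..1, CH p (Xp u d t ((r + 1) * k))
          (fun ω => (Xp u d t (r * k) ω, Z ω)) ≤ Xav p u d Z (N * k) := by
      rw [← intervalIntegral.integral_finsetSum (fun r _ => hIc _ _)]
      simp only [Xav]
      apply intervalIntegral.integral_mono_on zero_le_one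
      · have hs : (fun t => ∑ r ∈ range N, CH p (Xp u d t ((r + 1) * k))
            (fun ω => (Xp u d t (r * k) ω, Z ω))) = ∑ r ∈ range N, fun t =>
            CH p (Xp u d t ((r + 1) * k)) (fun ω => (Xp u d t (r * k) ω, Z ω)) := by
          funext t
          simp
        rw [hs]
        exact IntervalIntegrable.sum _ fun r _ => hIc _ _
      · exact (hINT m Ω ζ p u d hp).1 Z (N * k) 0 1
      · intro t _
        exact hSPB m Ω ζ p u d Z hp N k t
    have e3 := hSPA m Ω ζ p u d Z hp hd N k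
    have e4 : ∑ r ∈ range N, CH p (Fl u (r * k)) (fun ω => (Fl d (r * k) ω, Z ω)) ≤
        N * (ε * (N * k)) := by
      have : ∑ r ∈ range N, CH p (Fl u (r * k)) (fun ω => (Fl d (r * k) ω, Z ω)) ≤
          ∑ _r ∈ range N, ε * (N * k) := by
        apply sum_le_sum
        intro r hr
        have := hS r (mem_range.1 hr) 0 (Nat.zero_le _)
        simpa using this
      rwa [sum_const, card_range, nsmul_eq_mul] at this
    rw [sum_add_distrib] at e3
    have e5 : ∑ r ∈ range N, vv a p u d Z k r =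
        ∑ r ∈ range N, CH p (Fl d ((r + 1) * k)) (bb u d Z k r) -
          a * ∑ r ∈ range N, ∫ t in (0 : ℝ)..1, CH p (Xp u d t ((r + 1) * k))
            (bb u d Z k r) := by
      simp only [vv]
      rw [sum_sub_distrib, mul_sum]
    have e6 : ∑ r ∈ range N, ∫ t in (0 : ℝ)..1, (II p u d Z k r t + cc m) =
        ∑ r ∈ range N, (∫ t in (0 : ℝ)..1, CH p (Xp u d t ((r + 1) * k))
          (fun ω => (Xp u d t (r * k) ω, Z ω))) -
        ∑ r ∈ range N, (∫ t in (0 : ℝ)..1, CH p (Xp u d t ((r + 1) * k)) (bb u d Z k r)) +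
          N * cc m := by
      rw [sum_congr rfl fun r _ => e1 r, sum_add_distrib, sum_sub_distrib, sum_const, card_range,
        nsmul_eq_mul]
    have e7 := mul_le_mul_of_nonneg_left e2 ha0
    rw [sum_sub_distrib, sum_const, card_range, nsmul_eq_mul, e5, e6]
    simp only [BB]
    nlinarith [e3, e4, e7, hnear]

end Pool.STK
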