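import Pool.Agent.H90.STK.Stmts

/-!
# PIG: pigeonhole for two sums
-/

set_option autoImplicit false

namespace Pool.STK

open Finset

theorem pig_thm : PIGStmt := by
  intro N x y X Y hN hx hy hX hY
  by_contra hcon
  push Not at hcon
  have hN0 : (0 : ℝ) < N := by exact_mod_cast hN
  have hX0 : 0 ≤ X := (sum_nonneg fun r hr => hx r (mem_range.1 hr)).trans hX
  have hY0 : 0 ≤ Y := (sum_nonneg fun r hr => hy r (mem_range.1 hr)).trans hY
  have hne : (range N).Nonempty := ⟨0, mem_range.2 hN⟩
  have key : ∀ r < N, 2 * X < N * x r ∨ 2 * Y < N * y r := by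
    intro r hr
    by_cases h : x r ≤ 2 * X / N
    · right
      have h2 := hcon r hr h
      rw [div_lt_iff₀ hN0] at h2
      linarith [mul_comm (N : ℝ) (y r)]
    · left
      rw [not_le, div_lt_iff₀ hN0] at h
      linarith [mul_comm (N : ℝ) (x r)]
  rcases hX0.eq_or_lt with h0 | h0
  · have hz : ∀ r < N, x r = 0 := by
      intro r hr
      have h1 := single_le_sum (f := x) (fun i hi => hx i (mem_range.1 hi)) (mem_range.2 hr)
      have h2 := hx r hr
      linarith
    have h3 : ∑ r ∈ range N, 2 * Y < ∑ r ∈ range N, N * y r := by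
      apply sum_lt_sum_of_nonempty hne
      intro r hr
      rcases key r (mem_range.1 hr) with h | h
      · rw [hz r (mem_range.1 hr), ← h0] at h
        simp at h
      · exact h
    rw [sum_const, card_range, nsmul_eq_mul, ← mul_sum] at h3
    have h4 : 2 * Y < ∑ r ∈ range N, y r := lt_of_mul_lt_mul_left h3 hN0.le
    linarith
  rcases hY0.eq_or_lt with h1 | h1
  · have hz : ∀ r < N, y r = 0 := by
      intro r hr
      have h1 := single_le_sum (f := y) (fun i hi => hy i (mem_range.1 hi)) (mem_range.2 hr)
      have h2 := hy r hr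
      linarith
    have h3 : ∑ r ∈ range N, 2 * X < ∑ r ∈ range N, N * x r := by
      apply sum_lt_sum_of_nonempty hne
      intro r hr
      rcases key r (mem_range.1 hr) with h | h
      · exact h
      · rw [hz r (mem_range.1 hr), ← h1] at h
        simp at h
    rw [sum_const, card_range, nsmul_eq_mul, ← mul_sum] at h3
    have h4 : 2 * X < ∑ r ∈ range N, x r := lt_of_mul_lt_mul_left h3 hN0.le
    linarith
  have h3 : ∑ r ∈ range N, 2 * X * Y < ∑ r ∈ range N, (N * (x r * Y) + N * (y r * X)) := by
    apply sum_lt_sum_of_nonempty hne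
    intro r hr
    have hxr := hx r (mem_range.1 hr)
    have hyr := hy r (mem_range.1 hr)
    rcases key r (mem_range.1 hr) with h | h
    · have h5 : 2 * X * Y < N * x r * Y := mul_lt_mul_of_pos_right h h1
      have h6 : 0 ≤ N * (y r * X) := by positivity
      linarith
    · have h5 : 2 * Y * X < N * y r * X := mul_lt_mul_of_pos_right h h0
      have h6 : 0 ≤ N * (x r * Y) := by positivity
      linarith
  rw [sum_const, card_range, nsmul_eq_mul, sum_add_distrib, ← mul_sum, ← mul_sum, ← sum_mul,
    ← sum_mul, ← mul_add] at h3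
  have h4 := lt_of_mul_lt_mul_left h3 hN0.le
  have h5 : (∑ r ∈ range N, x r) * Y ≤ X * Y := mul_le_mul_of_nonneg_right hX hY0
  have h6 : (∑ r ∈ range N, y r) * X ≤ Y * X := mul_le_mul_of_nonneg_right hY hX0
  linarith

end Pool.STK
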