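import Pool.Agent.H90.STK.Stmts

/-!
# VDM: the Vandermonde system
-/

set_option autoImplicit false

namespace Pool.STK

theorem vdm_thm : VDMStmt := by
  intro n m v w h
  funext j i
  have hinj : Function.Injective (fun j : Fin n => ((j : ℕ) : ℤ)) := by
    intro a b hab
    have h1 : ((a : ℕ) : ℤ) = ((b : ℕ) : ℤ) := hab
    exact Fin.ext (by exact_mod_cast h1)
  have key : (fun j : Fin n => v j i - w j i) = 0 := by
    apply Matrix.eq_zero_of_forall_pow_sum_mul_pow_eq_zero hinj
    intro p
    have h1 := congrFun (h p p.2) i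
    simp only [Finset.sum_apply, Pi.smul_apply, smul_eq_mul] at h1
    have h2 : ∑ j : Fin n, (v j i - w j i) * (((j : ℕ) : ℤ)) ^ (p : ℕ) =
        ∑ j : Fin n, ((j : ℕ) : ℤ) ^ (p : ℕ) * v j i -
          ∑ j : Fin n, ((j : ℕ) : ℤ) ^ (p : ℕ) * w j i := by
      rw [← Finset.sum_sub_distrib]
      exact Finset.sum_congr rfl fun j _ => by ring
    rw [h2, h1, sub_self]
  have := congrFun key j
  simpa [sub_eq_zero] using this

end Pool.STK
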